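import Pool.Agent.Helper41.Cluster4.Goals

/-! MP_c45da2_co, packet S: two facts on small isometries (adapted from
`Pool/Agent/Helper49/Delone/PackC.lean`). -/

namespace Pool.Agent.Helper31.Cluster4

open Module Pool.Agent.Helper65.Delone Pool.Agent.Helper41.Cluster4
open scoped RealInnerProductSpace

variable {E : Type*} [NormedAddCommGroup E] [InnerProductSpace ℝ E]

lemma fixOrth' (A : E ≃ₗᵢ[ℝ] E) (v w : E) (hw : A w = w) : ⟪A v - v, w⟫ = 0 := by
  have h1 : ⟪A v, w⟫ = ⟪v, w⟫ := by
    conv_lhs => rw [← hw]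
    exact A.inner_map_map v w
  rw [inner_sub_left, h1, sub_self]

lemma indep' (A : E ≃ₗᵢ[ℝ] E) (hA : ∀ v : E, ‖A v - v‖ ≤ 2 / 15 * ‖v‖) (v : E) (hv : A v ≠ v) :
    LinearIndependent ℝ ![A v - v, A.symm v - v] := by
  have hw : A v - v ≠ 0 := sub_ne_zero.mpr hv
  have hAw' : A (A.symm v - v) = -(A v - v) := by
    rw [map_sub, LinearIsometryEquiv.apply_symm_apply, neg_sub]
  have hnorm : ‖A.symm v - v‖ = ‖A v - v‖ := by
    rw [← A.norm_map (A.symm v - v), hAw', norm_neg]
  have hpos : 0 < ‖A v - v‖ := norm_pos_iff.mpr hw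
  rw [LinearIndependent.pair_iff]
  intro s t hst
  have h1 : s • (A v - v) = -(t • (A.symm v - v)) := eq_neg_of_add_eq_zero_left hst
  have h2 : |s| * ‖A v - v‖ = |t| * ‖A v - v‖ := by
    have := congrArg norm h1
    rw [norm_neg, norm_smul, norm_smul, hnorm, Real.norm_eq_abs, Real.norm_eq_abs] at this
    exact this
  have h3 : |s| = |t| := mul_right_cancel₀ hpos.ne' h2
  by_cases hs : s = 0
  · refine ⟨hs, ?_⟩
    rw [hs, abs_zero] at h3
    exact abs_eq_zero.mp h3.symm
  · exfalso
    rcases abs_eq_abs.mp h3 with h | h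
    · rw [← h, ← smul_neg] at h1
      have h4 : A v - v = -(A.symm v - v) := smul_right_injective E hs h1
      have h5 : A (A v - v) = A v - v := by
        conv_lhs => rw [h4]
        rw [map_neg, hAw', neg_neg]
      have h6 := fixOrth' A v (A v - v) h5
      rw [inner_self_eq_zero] at h6
      exact hw h6
    · have h7 : s • (A v - v) = s • (A.symm v - v) := by
        rw [h1, h, neg_smul]
      have h4 : A v - v = A.symm v - v := smul_right_injective E hs h7
      have h5 : A (A v - v) = -(A v - v) := by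
        conv_lhs => rw [h4]
        exact hAw'
      have h6 := hA (A v - v)
      have h8 : A (A v - v) - (A v - v) = (-2 : ℝ) • (A v - v) := by
        rw [h5]; module
      rw [h8, norm_smul] at h6
      norm_num at h6
      linarith

/-- **Packet S**. -/
theorem smallFacts [FiniteDimensional ℝ E] : SmallFacts E := by
  intro A hA
  refine ⟨fun v hv => indep' A hA v hv, fun hA1 h4 => ?_⟩
  have hF : fixSpace A ≠ ⊤ := by
    intro h
    apply hA1
    ext v
    have : v ∈ fixSpace A := by rw [h]; exact Submodule.mem_top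
    exact this
  have hperp : (fixSpace A)ᗮ ≠ ⊥ := by
    intro h
    exact hF ((Submodule.orthogonal_eq_bot_iff).mp h)
  obtain ⟨u, hu, hu0⟩ := Submodule.exists_mem_ne_zero_of_ne_bot hperp
  have hAu : A u ≠ u := by
    intro h
    have h1 : u ∈ fixSpace A := h
    have h2 := (Submodule.mem_orthogonal _ _).mp hu u h1
    rw [inner_self_eq_zero] at h2
    exact hu0 h2
  have hind := indep' A hA u hAu
  have hw : A u - u ∈ (fixSpace A)ᗮ := by
    rw [Submodule.mem_orthogonal]
    intro f hf
    rw [real_inner_comm]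
    exact fixOrth' A u f hf
  have hw' : A.symm u - u ∈ (fixSpace A)ᗮ := by
    rw [Submodule.mem_orthogonal]
    intro f hf
    rw [real_inner_comm]
    refine fixOrth' A.symm u f ?_
    have h1 : A f = f := hf
    rw [LinearIsometryEquiv.symm_apply_eq, h1]
  have h1 : finrank ℝ (Submodule.span ℝ (Set.range ![A u - u, A.symm u - u])) = 2 := by
    rw [finrank_span_eq_card hind]; simp
  have h2 : Submodule.span ℝ (Set.range ![A u - u, A.symm u - u]) ≤ (fixSpace A)ᗮ := by
    rw [Submodule.span_le]
    rintro x ⟨i, rfl⟩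
    fin_cases i
    · exact hw
    · exact hw'
  have h3 := Submodule.finrank_mono h2
  have h5 := Submodule.finrank_add_finrank_orthogonal (fixSpace A)
  omega

end Pool.Agent.Helper31.Cluster4
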